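import Pool.Agent.Helper80.Stack.Goals

set_option autoImplicit false

/-!
# Packet CURVE: an upward planar drawing by curves gives a level drawing
-/

namespace Pool.Agent.Helper45.Stk

open Pool.Agent.Helper80.Stk Set

/-- the abscissa of an upward curve as a continuous function of the height -/
lemma height_param (γ : ℝ → ℝ × ℝ) (hc : ContinuousOn γ (Icc 0 1))
    (hm : ∀ s ∈ Icc (0:ℝ) 1, ∀ t ∈ Icc (0:ℝ) 1, s < t → (γ s).2 < (γ t).2) :
    ∃ X : ℝ → ℝ, ContinuousOn X (Icc (γ 0).2 (γ 1).2) ∧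
      (∀ s ∈ Icc (0:ℝ) 1, X (γ s).2 = (γ s).1) ∧
      ∀ η ∈ Icc (γ 0).2 (γ 1).2, ∃ s ∈ Icc (0:ℝ) 1, (γ s).2 = η := by
  classical
  have hc1 : ContinuousOn (fun s => (γ s).1) (Icc 0 1) := continuous_fst.comp_continuousOn hc
  have hc2 : ContinuousOn (fun s => (γ s).2) (Icc 0 1) := continuous_snd.comp_continuousOn hc
  let F : Icc (0:ℝ) 1 → ℝ := fun s => (γ s).2
  let G : Icc (0:ℝ) 1 → ℝ := fun s => (γ s).1
  have hF : Continuous F := continuousOn_iff_continuous_domRestrict.1 hc2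
  have hG : Continuous G := continuousOn_iff_continuous_domRestrict.1 hc1
  have hinj : Function.Injective F := by
    intro s t hst
    by_contra hne
    have hne' : (s : ℝ) ≠ t := fun h => hne (Subtype.ext h)
    rcases lt_or_gt_of_ne hne' with h | h
    · exact absurd hst (hm s s.2 t t.2 h).ne
    · exact absurd hst (hm t t.2 s s.2 h).ne'
  let e := (hF.isClosedEmbedding hinj).isEmbedding.toHomeomorph
  have he : ∀ s, e s = ⟨F s, s, rfl⟩ := fun s => rfl
  have hsurj : Icc (γ 0).2 (γ 1).2 ⊆ range F := by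
    intro η hη
    obtain ⟨s, hs, hs'⟩ := intermediate_value_Icc zero_le_one hc2 hη
    exact ⟨⟨s, hs⟩, hs'⟩
  let X : ℝ → ℝ := fun η => if h : η ∈ range F then G (e.symm ⟨η, h⟩) else 0
  refine ⟨X, ?_, ?_, ?_⟩
  · refine ContinuousOn.mono ?_ hsurj
    rw [continuousOn_iff_continuous_domRestrict]
    have h1 : (range F).domRestrict X = G ∘ e.symm := by
      funext z
      show X z = G (e.symm z)
      have h2 : (z : ℝ) ∈ range F := z.2
      simp only [X, dif_pos h2]
    rw [h1]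
    exact hG.comp e.symm.continuous
  · intro s hs
    have h2 : (γ s).2 ∈ range F := ⟨⟨s, hs⟩, rfl⟩
    show X (γ s).2 = (γ s).1
    simp only [X, dif_pos h2]
    have h3 : e.symm ⟨(γ s).2, h2⟩ = ⟨s, hs⟩ := by
      rw [Homeomorph.symm_apply_eq, he]
    rw [h3]
  · intro η hη
    obtain ⟨s, hs⟩ := hsurj hη
    exact ⟨s, s.2, hs⟩

theorem pf_Curve : StmtCurve := by
  classical
  intro V _ E p γ hp hγ hcross
  let H : Finset ℝ := Finset.univ.image fun v => (p v).2
  have hmem : ∀ v, (p v).2 ∈ H := fun v => Finset.mem_image_of_mem _ (Finset.mem_univ v)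
  let lev : V → ℕ := fun v => (((H.orderIsoOfFin rfl).symm ⟨(p v).2, hmem v⟩ : Fin H.card) : ℕ)
  have lev_lt_card : ∀ v, lev v < H.card := fun v => Fin.is_lt _
  let h : ℕ → ℝ := fun i => if hi : i < H.card then ((H.orderIsoOfFin rfl ⟨i, hi⟩ : H) : ℝ) else 0
  have hlev : ∀ v, h (lev v) = (p v).2 := by
    intro v
    have h1 : lev v < H.card := lev_lt_card v
    show (if hi : lev v < H.card then ((H.orderIsoOfFin rfl ⟨lev v, hi⟩ : H) : ℝ) else 0) = _
    rw [dif_pos h1]
    have h2 : (⟨lev v, h1⟩ : Fin H.card) = (H.orderIsoOfFin rfl).symm ⟨(p v).2, hmem v⟩ := rfl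
    rw [h2, OrderIso.apply_symm_apply]
  have hmono : ∀ i j, i < j → j < H.card → h i < h j := by
    intro i j hij hj
    have hi : i < H.card := hij.trans hj
    show (if hi : i < H.card then ((H.orderIsoOfFin rfl ⟨i, hi⟩ : H) : ℝ) else 0) <
      (if hi : j < H.card then ((H.orderIsoOfFin rfl ⟨j, hi⟩ : H) : ℝ) else 0)
    rw [dif_pos hi, dif_pos hj]
    have h1 : H.orderIsoOfFin rfl ⟨i, hi⟩ < H.orderIsoOfFin rfl ⟨j, hj⟩ :=
      (H.orderIsoOfFin rfl).strictMono (by exact hij)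
    exact h1
  have hmono' : ∀ i j, i ≤ j → j < H.card → h i ≤ h j := by
    intro i j hij hj
    rcases hij.lt_or_eq with h1 | h1
    · exact (hmono i j h1 hj).le
    · rw [h1]
  have hrefl : ∀ i j, i < H.card → h i < h j → i < j := by
    intro i j hi hij
    by_contra hcon
    push Not at hcon
    exact absurd (hmono' j i hcon hi) (not_le.2 hij)
  -- the abscissas
  have hX : ∀ a b, ∃ X : ℝ → ℝ, E a b → (ContinuousOn X (Icc (p a).2 (p b).2) ∧
      (∀ s ∈ Icc (0:ℝ) 1, X (γ a b s).2 = (γ a b s).1) ∧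
      ∀ η ∈ Icc (p a).2 (p b).2, ∃ s ∈ Icc (0:ℝ) 1, (γ a b s).2 = η) := by
    intro a b
    by_cases hE : E a b
    · obtain ⟨h1, h2, h3, h4, -⟩ := hγ a b hE
      obtain ⟨X, hX⟩ := height_param (γ a b) h1 h4
      rw [h2, h3] at hX
      exact ⟨X, fun _ => hX⟩
    · exact ⟨0, fun h => absurd h hE⟩
  choose X hXc using hX
  have hy : ∀ a b, E a b → (p a).2 < (p b).2 := by
    intro a b hE
    obtain ⟨h1, h2, h3, h4, -⟩ := hγ a b hE
    have := h4 0 (by simp) 1 (by simp) zero_lt_one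
    rwa [h2, h3] at this
  have hlt : ∀ a b, E a b → lev a < lev b := by
    intro a b hE
    apply hrefl _ _ (lev_lt_card a)
    rw [hlev, hlev]
    exact hy a b hE
  have hpt : ∀ a b, E a b → ∀ η ∈ Icc (p a).2 (p b).2, ∃ s ∈ Icc (0:ℝ) 1,
      γ a b s = (X a b η, η) := by
    intro a b hE η hη
    obtain ⟨s, hs, hs'⟩ := (hXc a b hE).2.2 η hη
    refine ⟨s, hs, Prod.ext ?_ hs'⟩
    show (γ a b s).1 = X a b η
    rw [← (hXc a b hE).2.1 s hs, hs']
  have hIcc : ∀ a b i, E a b → lev a ≤ i → i ≤ lev b → h i ∈ Icc (p a).2 (p b).2 := by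
    intro a b i hE h1 h2
    rw [← hlev a, ← hlev b]
    exact ⟨hmono' _ _ h1 (h2.trans_lt (lev_lt_card b)), hmono' _ _ h2 (lev_lt_card b)⟩
  refine ⟨{
    lev := lev
    x := fun v => (p v).1
    X := fun a b i => X a b (h i)
    lev_lt := hlt
    X_bot := ?_
    X_top := ?_
    x_inj := ?_
    X_vert := ?_
    X_edge := ?_
    mono := ?_ }⟩
  · intro a b hE
    obtain ⟨h1, h2, h3, h4, -⟩ := hγ a b hE
    show X a b (h (lev a)) = (p a).1
    rw [hlev, ← h2, (hXc a b hE).2.1 0 (by simp)]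
  · intro a b hE
    obtain ⟨h1, h2, h3, h4, -⟩ := hγ a b hE
    show X a b (h (lev b)) = (p b).1
    rw [hlev, ← h3, (hXc a b hE).2.1 1 (by simp)]
  · intro a b hab hx
    apply hp
    refine Prod.ext hx ?_
    rw [← hlev a, ← hlev b, hab]
  · intro a b v hE h1 h2 hcon
    obtain ⟨s, hs, hs'⟩ := hpt a b hE (h (lev v)) (hIcc a b _ hE h1.le h2.le)
    have hcon' : X a b (h (lev v)) = (p v).1 := hcon
    have h3 : γ a b s = p v := by
      rw [hs', hcon', hlev]
    rcases (hγ a b hE).2.2.2.2 v s hs h3 with h4 | h4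
    · rw [h4] at h1; exact lt_irrefl _ h1
    · rw [h4] at h2; exact lt_irrefl _ h2
  · intro a b c d i hE hE' h1 h2 h3 h4 heq
    by_contra hne
    have hne' : a ≠ c ∨ b ≠ d := by
      by_contra hcon
      push Not at hcon
      exact hne hcon
    obtain ⟨s, hs, hs'⟩ := hpt a b hE (h i) (hIcc a b _ hE h1.le h2.le)
    obtain ⟨t, ht, ht'⟩ := hpt c d hE' (h i) (hIcc c d _ hE' h3.le h4.le)
    have heq' : X a b (h i) = X c d (h i) := heq
    obtain ⟨v, hv⟩ := hcross a b c d hE hE' hne' s hs t ht (by rw [hs', ht', heq'])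
    have h5 : (p v).2 = h i := by rw [← hv, hs']
    have hi : i < H.card := h2.trans (lev_lt_card b)
    rcases (hγ a b hE).2.2.2.2 v s hs hv with h6 | h6
    · have := hmono _ _ h1 hi
      rw [← h5, h6, hlev] at this
      exact lt_irrefl _ this
    · have := hmono _ _ h2 (lev_lt_card b)
      rw [← h5, h6, hlev] at this
      exact lt_irrefl _ this
  · intro a b c d i hE hE' h1 h2 h3 h4 hlt'
    by_contra hcon
    have hA : X a b (h i) < X c d (h i) := hlt'
    have hB : X c d (h (i + 1)) < X a b (h (i + 1)) := not_le.1 hcon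
    have hne' : a ≠ c ∨ b ≠ d := by
      by_contra hcon'
      push Not at hcon'
      rw [hcon'.1, hcon'.2] at hA
      exact lt_irrefl _ hA
    have hi1 : i + 1 < H.card := (Nat.succ_le_of_lt h2).trans_lt (lev_lt_card b)
    have hi : i < H.card := (Nat.lt_succ_self i).trans hi1
    have hsub1 : Icc (h i) (h (i + 1)) ⊆ Icc (p a).2 (p b).2 :=
      Icc_subset_Icc (hIcc a b i hE h1 h2.le).1 (hIcc a b (i + 1) hE (by omega) h2).2
    have hsub2 : Icc (h i) (h (i + 1)) ⊆ Icc (p c).2 (p d).2 :=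
      Icc_subset_Icc (hIcc c d i hE' h3 h4.le).1 (hIcc c d (i + 1) hE' (by omega) h4).2
    have hD : ContinuousOn (fun η => X a b η - X c d η) (Icc (h i) (h (i + 1))) :=
      ((hXc a b hE).1.mono hsub1).sub ((hXc c d hE').1.mono hsub2)
    obtain ⟨η, hη, hη0⟩ := intermediate_value_Icc (hmono' i (i + 1) (by omega) hi1) hD
      (show (0 : ℝ) ∈ Icc (X a b (h i) - X c d (h i)) (X a b (h (i + 1)) - X c d (h (i + 1))) from
        ⟨by linarith, by linarith⟩)
    have hη0' : X a b η = X c d η := sub_eq_zero.1 hη0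
    have hη1 : h i < η := by
      rcases hη.1.lt_or_eq with h5 | h5
      · exact h5
      · rw [← h5] at hη0'; exact absurd hη0' hA.ne
    have hη2 : η < h (i + 1) := by
      rcases hη.2.lt_or_eq with h5 | h5
      · exact h5
      · rw [h5] at hη0'; exact absurd hη0' hB.ne'
    obtain ⟨s, hs, hs'⟩ := hpt a b hE η (hsub1 hη)
    obtain ⟨t, ht, ht'⟩ := hpt c d hE' η (hsub2 hη)
    obtain ⟨v, hv⟩ := hcross a b c d hE hE' hne' s hs t ht (by rw [hs', ht', hη0'])
    have h5 : h (lev v) = η := by rw [hlev, ← hv, hs']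
    have h6 := hrefl i (lev v) hi (by rw [h5]; exact hη1)
    have h7 := hrefl (lev v) (i + 1) (lev_lt_card v) (by rw [h5]; exact hη2)
    omega

end Pool.Agent.Helper45.Stk
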